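import Mathlib

set_option autoImplicit false

namespace Pool.Agent.Results.MP_8926dc_co.CliqueCountDisproof

open Finset

/-- `k_j(G)`: the number of `j`-element vertex sets of `G` that span a clique. -/
noncomputable def numCliques {n : ℕ} (G : SimpleGraph (Fin n)) (j : ℕ) : ℕ :=
  {S : Finset (Fin n) | G.IsNClique j S}.ncard

/-- `f_j(s,t) = C(s,j) + C(t,j-1)`. -/
def f (j s t : ℕ) : ℕ := s.choose j + t.choose (j - 1)

/-- `k_r(k_p ≤ x) = m`: the largest number of `r`-cliques in a finite graph
with at most `x` `p`-cliques is `m`. -/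
def MaxCliquesEq (p r x m : ℕ) : Prop :=
  IsGreatest {c : ℕ | ∃ (n : ℕ) (G : SimpleGraph (Fin n)),
    numCliques G p ≤ x ∧ numCliques G r = c} m

/-- The graph `K_s` with a vertex joined to `t` and a vertex joined to `u` of its vertices. -/
def twoExtra (s t u : ℕ) : SimpleGraph (Fin (s + 2)) where
  Adj i j := i ≠ j ∧ ((i.val < s ∧ j.val < s) ∨
    (i.val = s ∧ j.val < t) ∨ (j.val = s ∧ i.val < t) ∨
    (i.val = s + 1 ∧ j.val < u) ∨ (j.val = s + 1 ∧ i.val < u))
  symm := by
    constructor
    intro i j h
    refine ⟨h.1.symm, ?_⟩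
    tauto
  loopless := by
    constructor
    intro i h
    exact h.1 rfl

/-- Initial segment `{0,...,m-1}` of the vertices. -/
def seg (N m : ℕ) : Finset (Fin N) := univ.filter (fun i => i.val < m)

lemma card_seg (N m : ℕ) (h : m ≤ N) : (seg N m).card = m := by
  have : (seg N m).map Fin.valEmbedding = range m := by
    ext a
    simp only [seg, mem_map, mem_filter, mem_univ, true_and, Fin.valEmbedding_apply, mem_range]
    constructor
    · rintro ⟨x, hx, rfl⟩; exact hx
    · intro ha; exact ⟨⟨a, by omega⟩, ha, rfl⟩
  rw [← card_map Fin.valEmbedding, this, card_range]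

lemma clique_set_eq (s t u j : ℕ) (hj : 2 ≤ j) (ht : t < s) (hu : u < s) :
    {S : Finset (Fin (s + 2)) | (twoExtra s t u).IsNClique j S} =
      (((powersetCard j (seg (s + 2) s)) ∪
        ((powersetCard (j - 1) (seg (s + 2) t)).image (insert (⟨s, by omega⟩ : Fin (s + 2))))) ∪
        ((powersetCard (j - 1) (seg (s + 2) u)).image
          (insert (⟨s + 1, by omega⟩ : Fin (s + 2)))) : Finset (Finset (Fin (s + 2)))) := by
  ext S
  simp only [Set.mem_ofPred_eq, coe_union, Set.mem_union, mem_coe, mem_powersetCard,
    coe_image, Set.mem_image]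
  rw [SimpleGraph.isNClique_iff, SimpleGraph.isClique_iff]
  constructor
  · rintro ⟨hc, hcard⟩
    by_cases h1 : (⟨s, by omega⟩ : Fin (s + 2)) ∈ S
    · left; right
      refine ⟨S.erase ⟨s, by omega⟩, ⟨?_, ?_⟩, insert_erase h1⟩
      · intro i hi
        rw [mem_erase] at hi
        have := hc (mem_coe.2 hi.2) (mem_coe.2 h1) hi.1
        simp only [seg, mem_filter, mem_univ, true_and]
        obtain ⟨_, h⟩ := this
        have hne : i.val ≠ s := fun h' => hi.1 (Fin.ext h')
        simp only at h
        omega
      · rw [card_erase_of_mem h1, hcard]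
    · by_cases h2 : (⟨s + 1, by omega⟩ : Fin (s + 2)) ∈ S
      · right
        refine ⟨S.erase ⟨s + 1, by omega⟩, ⟨?_, ?_⟩, insert_erase h2⟩
        · intro i hi
          rw [mem_erase] at hi
          have := hc (mem_coe.2 hi.2) (mem_coe.2 h2) hi.1
          simp only [seg, mem_filter, mem_univ, true_and]
          obtain ⟨_, h⟩ := this
          have hne : i.val ≠ s + 1 := fun h' => hi.1 (Fin.ext h')
          simp only at h
          omega
        · rw [card_erase_of_mem h2, hcard]
      · left; left
        refine ⟨?_, hcard⟩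
        intro i hi
        simp only [seg, mem_filter, mem_univ, true_and]
        have hne1 : i.val ≠ s := fun h' => h1 (by
          have : i = ⟨s, by omega⟩ := Fin.ext h'
          rwa [this] at hi)
        have hne2 : i.val ≠ s + 1 := fun h' => h2 (by
          have : i = ⟨s + 1, by omega⟩ := Fin.ext h'
          rwa [this] at hi)
        have := i.isLt
        omega
  · rintro ((⟨hsub, hcard⟩ | ⟨T, ⟨hsub, hcard⟩, rfl⟩) | ⟨T, ⟨hsub, hcard⟩, rfl⟩)
    · refine ⟨?_, hcard⟩
      intro a ha b hb hab
      have h1 := hsub (mem_coe.1 ha)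
      have h2 := hsub (mem_coe.1 hb)
      simp only [seg, mem_filter, mem_univ, true_and] at h1 h2
      exact ⟨hab, Or.inl ⟨h1, h2⟩⟩
    · have hT : ∀ a ∈ T, a.val < t := by
        intro a ha
        have := hsub ha
        simpa [seg] using this
      refine ⟨?_, ?_⟩
      · intro a ha b hb hab
        rw [mem_coe, mem_insert] at ha hb
        refine ⟨hab, ?_⟩
        rcases ha with rfl | ha <;> rcases hb with rfl | hb
        · exact absurd rfl hab
        · have := hT b hb
          exact Or.inr (Or.inl ⟨rfl, this⟩)
        · have := hT a ha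
          exact Or.inr (Or.inr (Or.inl ⟨rfl, this⟩))
        · have := hT b hb
          have := hT a ha
          omega
      · rw [card_insert_of_notMem, hcard]
        · omega
        · intro h
          have := hT _ h
          simp only at this
          omega
    · have hT : ∀ a ∈ T, a.val < u := by
        intro a ha
        have := hsub ha
        simpa [seg] using this
      refine ⟨?_, ?_⟩
      · intro a ha b hb hab
        rw [mem_coe, mem_insert] at ha hb
        refine ⟨hab, ?_⟩
        rcases ha with rfl | ha <;> rcases hb with rfl | hb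
        · exact absurd rfl hab
        · have := hT b hb
          exact Or.inr (Or.inr (Or.inr (Or.inl ⟨rfl, this⟩)))
        · have := hT a ha
          exact Or.inr (Or.inr (Or.inr (Or.inr ⟨rfl, this⟩)))
        · have := hT b hb
          have := hT a ha
          omega
      · rw [card_insert_of_notMem, hcard]
        · omega
        · intro h
          have := hT _ h
          simp only at this
          omega

lemma card_image_insert {α : Type*} [DecidableEq α] (v : α) (A : Finset α) (hv : v ∉ A) (m : ℕ) :
    ((powersetCard m A).image (insert v)).card = A.card.choose m := by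
  rw [card_image_of_injOn, card_powersetCard]
  intro X hX Y hY h
  rw [mem_coe, mem_powersetCard] at hX hY
  have hx : v ∉ X := fun h' => hv (hX.1 h')
  have hy : v ∉ Y := fun h' => hv (hY.1 h')
  rw [← erase_insert hx, ← erase_insert hy, h]

/-- The number of `j`-cliques, `j ≥ 2`. -/
lemma numCliques_twoExtra (s t u j : ℕ) (hj : 2 ≤ j) (ht : t < s) (hu : u < s) :
    numCliques (twoExtra s t u) j = s.choose j + t.choose (j - 1) + u.choose (j - 1) := by
  unfold numCliques
  rw [clique_set_eq s t u j hj ht hu, Set.ncard_coe_finset, card_union_of_disjoint,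
    card_union_of_disjoint, card_powersetCard, card_seg _ _ (by omega), card_image_insert,
    card_image_insert, card_seg _ _ (by omega), card_seg _ _ (by omega)]
  · simp only [seg, mem_filter, mem_univ, true_and]; omega
  · simp only [seg, mem_filter, mem_univ, true_and]; omega
  · rw [disjoint_left]
    intro S hS hS'
    rw [mem_powersetCard] at hS
    rw [mem_image] at hS'
    obtain ⟨T, _, rfl⟩ := hS'
    have := hS.1 (mem_insert_self _ _)
    simp [seg] at this
  · rw [disjoint_left]
    intro S hS hS'
    rw [mem_union, mem_powersetCard, mem_image] at hS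
    rw [mem_image] at hS'
    obtain ⟨T, _, rfl⟩ := hS'
    rcases hS with hS | ⟨T', hT', h⟩
    · have := hS.1 (mem_insert_self _ _)
      simp [seg] at this
    · have h1 : (⟨s + 1, by omega⟩ : Fin (s + 2)) ∈ insert (⟨s, by omega⟩ : Fin (s + 2)) T' := by
        rw [h]; exact mem_insert_self _ _
      rw [mem_insert] at h1
      rcases h1 with h1 | h1
      · have := congrArg Fin.val h1
        simp at this
      · rw [mem_powersetCard] at hT'
        have := hT'.1 h1
        simp only [seg, mem_filter, mem_univ, true_and] at this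
        omega

/-- The general family of counterexamples. -/
theorem family (p r s t : ℕ) (hp : 3 ≤ p) (hpr : p < r) (hrs : r ≤ s) (hts : t < s)
    (hc : (r - 1).choose (p - 1) < t.choose (p - 2)) :
    ∃ G : SimpleGraph (Fin (s + 2)),
      numCliques G p ≤ f p s (t + 1) - 1 ∧ f r s t < numCliques G r := by
  refine ⟨twoExtra s t (r - 1), ?_, ?_⟩
  · rw [numCliques_twoExtra s t (r - 1) p (by omega) hts (by omega)]
    unfold f
    obtain ⟨q, rfl⟩ : ∃ q, p = q + 2 := ⟨p - 2, by omega⟩
    have e1 : q + 2 - 1 = q + 1 := by omega
    have e2 : q + 2 - 2 = q := by omega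
    rw [e1] at hc ⊢
    rw [e2] at hc
    rw [Nat.choose_succ_succ' t q]
    omega
  · rw [numCliques_twoExtra s t (r - 1) r (by omega) hts (by omega)]
    unfold f
    rw [Nat.choose_self]
    omega

/-- Q1 is false, and it fails for every admissible `(p,r,s,t)` with
`C(r-1,p-1) < C(t,p-2)`. -/
theorem result :
    (¬ ∀ p r s t : ℕ, 3 ≤ p → p < r → r ≤ s → p - 2 ≤ t → t < s →
        MaxCliquesEq p r (f p s (t + 1) - 1) (f r s t)) ∧
    (∀ p r s t : ℕ, 3 ≤ p → p < r → r ≤ s → t < s →
        (r - 1).choose (p - 1) < t.choose (p - 2) →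
        ∃ G : SimpleGraph (Fin (s + 2)),
          numCliques G p ≤ f p s (t + 1) - 1 ∧ f r s t < numCliques G r) := by
  refine ⟨?_, family⟩
  intro h
  have h1 := h 3 4 5 4 (by norm_num) (by norm_num) (by norm_num) (by norm_num) (by norm_num)
  obtain ⟨G, hG1, hG2⟩ := family 3 4 5 4 (by norm_num) (by norm_num) (by norm_num) (by norm_num)
    (by decide)
  have h2 := h1.2 ⟨_, G, hG1, rfl⟩
  omega

end Pool.Agent.Results.MP_8926dc_co.CliqueCountDisproof
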